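import Mathlib

namespace Pool.Agent.Results.MP_f9a7a1_al.No

open CategoryTheory CategoryTheory.Abelian

/-- the least degree r ≥ 1 with a nonzero self-extension group, infinity if there is none -/
noncomputable def phi {R : Type} [Ring R] (M : ModuleCat.{0} R) : ℕ∞ :=
  sInf {n : ℕ∞ | ∃ r : ℕ, n = r ∧ 1 ≤ r ∧ Nontrivial (Ext.{0} M M r)}

section general

variable {R : Type} [Ring R]

theorem ext_vanish (x : R)
    (h : ∀ t, (∀ z, z * x = 0 → ∃ c, z * t = c * x) → ∃ r s, t = r * x + x * s) :
    Subsingleton (Ext.{0} (ModuleCat.of R (R ⧸ Submodule.span R {x}))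
      (ModuleCat.of R (R ⧸ Submodule.span R {x})) 1) := by
  set N : Submodule R R := Submodule.span R {x} with hN
  let S : ShortComplex (ModuleCat.{0} R) :=
    ShortComplex.mk (ModuleCat.ofHom N.subtype) (ModuleCat.ofHom N.mkQ) (by
      ext w
      simp)
  have hS : S.ShortExact := by
    refine ModuleCat.shortComplex_shortExact S ?_ ?_ ?_
    · exact LinearMap.exact_subtype_mkQ N
    · exact N.injective_subtype
    · exact N.mkQ_surjective
  have hP : Projective S.X₂ := by
    change Projective (ModuleCat.of R R)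
    infer_instance
  have key : ∀ e : Ext.{0} S.X₃ S.X₃ 1, e = 0 := by
    intro e
    obtain ⟨f, hf⟩ := Ext.contravariant_sequence_exact₃ hS S.X₃ e
      (Ext.eq_zero_of_projective _) (n₀ := 0) rfl
    obtain ⟨f, rfl⟩ := (Ext.mk₀_bijective _ _).2 f
    have hxN : x ∈ N := Submodule.mem_span_singleton_self x
    obtain ⟨t, ht⟩ := N.mkQ_surjective (f.hom ⟨x, hxN⟩)
    have h1 : ∀ z, z * x = 0 → ∃ c, z * t = c * x := by
      intro z hzx
      have h2 : z • f.hom ⟨x, hxN⟩ = 0 := by
        rw [← f.hom.map_smul]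
        have : z • (⟨x, hxN⟩ : N) = 0 := Subtype.ext hzx
        exact (congrArg f.hom this).trans f.hom.map_zero
      have h3 : N.mkQ (z * t) = 0 := by
        rw [← smul_eq_mul, N.mkQ.map_smul, ht]
        exact h2
      obtain ⟨c, hc⟩ := Submodule.mem_span_singleton.1 ((Submodule.Quotient.mk_eq_zero N).1 h3)
      exact ⟨c, hc.symm⟩
    obtain ⟨r, s, hrs⟩ := h t h1
    let g : S.X₂ ⟶ S.X₃ := ModuleCat.ofHom (LinearMap.toSpanSingleton R (R ⧸ N) (N.mkQ s))
    have hg : f = S.f ≫ g := by
      ext w
      obtain ⟨w, hw⟩ := w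
      obtain ⟨d, rfl⟩ := Submodule.mem_span_singleton.1 hw
      have e2 : f.hom ⟨d • x, hw⟩ = d • N.mkQ t := by
        rw [ht, ← f.hom.map_smul]
        rfl
      have e3 : N.mkQ t = N.mkQ (x * s) := by
        rw [hrs, map_add]
        have : N.mkQ (r * x) = 0 :=
          (Submodule.Quotient.mk_eq_zero N).2 (N.smul_mem r hxN)
        rw [this, zero_add]
      change f.hom ⟨d • x, hw⟩ = (d • x) • N.mkQ s
      rw [e2, e3, ← smul_eq_mul, N.mkQ.map_smul, smul_eq_mul, mul_smul]
    rw [← hf, hg, ← Ext.mk₀_comp_mk₀]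
    exact hS.extClass_comp_assoc _
  exact ⟨fun a b => (key a).trans (key b).symm⟩

theorem not_proj (x : R) (h : ∀ r, x + x * r * x ≠ 0) :
    ¬ Module.Projective R (R ⧸ Submodule.span R {x}) := by
  intro hp
  set N : Submodule R R := Submodule.span R {x} with hN
  obtain ⟨s, hs⟩ := Module.projective_lifting_property N.mkQ LinearMap.id N.mkQ_surjective
  have hxN : x ∈ N := Submodule.mem_span_singleton_self x
  have h1 : N.mkQ (s (N.mkQ 1)) = N.mkQ 1 := LinearMap.congr_fun hs (N.mkQ 1)
  have h2 : s (N.mkQ 1) - 1 ∈ N := (Submodule.Quotient.eq N).1 h1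
  obtain ⟨r, hr⟩ := Submodule.mem_span_singleton.1 h2
  have h3 : x * s (N.mkQ 1) = 0 := by
    rw [← smul_eq_mul, ← s.map_smul, ← N.mkQ.map_smul, smul_eq_mul, mul_one]
    have : N.mkQ x = 0 := (Submodule.Quotient.mk_eq_zero N).2 hxN
    rw [this, s.map_zero]
  apply h r
  have h4 : s (N.mkQ 1) = 1 + r * x := by
    rw [← smul_eq_mul, hr]; abel
  rw [h4, mul_add, mul_one, ← mul_assoc] at h3
  exact h3

structure Der (R : Type) [Ring R] where
  D : R →+ R
  hD : ∀ a b, D (a * b) = D a * b + a * D b

def Tw (_ : Der R) (S : Type) : Type := S × S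

variable (d : Der R) (S : Type) [AddCommGroup S] [Module R S]

instance : AddCommGroup (Tw d S) := inferInstanceAs (AddCommGroup (S × S))

theorem D_one : d.D 1 = 0 := by
  have := d.hD 1 1
  simpa using this

instance : Module R (Tw d S) where
  smul a p := (a • p.1 + d.D a • p.2, a • p.2)
  one_smul p := Prod.ext (by
    change (1 : R) • p.1 + d.D 1 • p.2 = p.1
    rw [D_one, one_smul, zero_smul, add_zero]) (one_smul R p.2)
  mul_smul a b p := Prod.ext (by
    change (a * b) • p.1 + d.D (a * b) • p.2 = a • (b • p.1 + d.D b • p.2) + d.D a • b • p.2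
    rw [d.hD, add_smul, smul_add, mul_smul, mul_smul, mul_smul]; abel) (mul_smul a b p.2)
  smul_zero a := Prod.ext (by
    change a • (0 : S) + d.D a • (0 : S) = 0
    simp) (smul_zero a)
  smul_add a p q := Prod.ext (by
    change a • (p.1 + q.1) + d.D a • (p.2 + q.2) = a • p.1 + d.D a • p.2 + (a • q.1 + d.D a • q.2)
    rw [smul_add, smul_add]; abel) (smul_add a p.2 q.2)
  add_smul a b p := Prod.ext (by
    change (a + b) • p.1 + d.D (a + b) • p.2 = a • p.1 + d.D a • p.2 + (b • p.1 + d.D b • p.2)
    rw [map_add, add_smul, add_smul]; abel) (add_smul a b p.2)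
  zero_smul p := Prod.ext (by
    change (0 : R) • p.1 + d.D 0 • p.2 = 0
    simp) (zero_smul R p.2)

theorem ext_ne (T : ModuleCat.{0} R) (u : R) (hu : ∀ v : T, u • v = 0) (v : T)
    (hv : d.D u • v ≠ 0) : Nontrivial (Ext.{0} T T 1) := by
  by_contra hn
  rw [not_nontrivial_iff_subsingleton] at hn
  let f : T →ₗ[R] Tw d T :=
    { toFun := fun w => (w, 0)
      map_add' := fun a b => Prod.ext rfl (add_zero _).symm
      map_smul' := fun a w => Prod.ext (by
        change a • w = a • w + d.D a • (0 : T)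
        simp) (smul_zero a).symm }
  let g : Tw d T →ₗ[R] T :=
    { toFun := fun p => p.2
      map_add' := fun a b => rfl
      map_smul' := fun a w => rfl }
  have hfg : Function.Exact f g := by
    intro p
    constructor
    · intro hp
      exact ⟨p.1, Prod.ext rfl hp.symm⟩
    · rintro ⟨w, rfl⟩
      rfl
  let C : ShortComplex (ModuleCat.{0} R) :=
    ShortComplex.mk (X₁ := T) (X₂ := ModuleCat.of R (Tw d T)) (X₃ := T)
      (ModuleCat.ofHom f) (ModuleCat.ofHom g) (by
      ext w
      rfl)
  have hC : C.ShortExact := ModuleCat.shortComplex_shortExact C hfg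
    (fun a b hab => congrArg Prod.fst hab) (fun w => ⟨(0, w), rfl⟩)
  obtain ⟨y, hy⟩ := Ext.covariant_sequence_exact₃ T hC (Ext.mk₀ (𝟙 T)) (n₁ := 1) rfl
    (Subsingleton.elim _ _)
  obtain ⟨y, rfl⟩ := (Ext.mk₀_bijective _ _).2 y
  rw [Ext.mk₀_comp_mk₀] at hy
  have h1 := (Ext.mk₀_bijective _ _).1 hy
  have h2 : (y.hom v).2 = v := congrArg (fun φ : T ⟶ T => φ.hom v) h1
  have h3 : u • y.hom v = 0 := by rw [← map_smul, hu, map_zero]
  have h4 : u • (y.hom v).1 + d.D u • (y.hom v).2 = 0 := congrArg Prod.fst h3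
  rw [hu, zero_add, h2] at h4
  exact hv h4

theorem kill (T : Type) [AddCommGroup T] [Module R T] [IsSimpleModule R T] (u : R)
    (hc : ∀ a, u * a = a * u) (h3 : u * u * u = 0) (v : T) : u • v = 0 := by
  let f : T →ₗ[R] T :=
    { toFun := fun w => u • w
      map_add' := smul_add u
      map_smul' := fun a w => by
        change u • a • w = a • u • w
        rw [← mul_smul, hc, mul_smul] }
  rcases LinearMap.bijective_or_eq_zero f with h | h
  · apply h.1
    apply h.1
    change u • u • u • v = u • u • (0 : T)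
    rw [← mul_smul, ← mul_smul, h3, zero_smul, smul_zero, smul_zero]
  · exact LinearMap.congr_fun h v

end general

abbrev K : Type := ZMod 3
instance : Fact (Nat.Prime 3) := ⟨by norm_num⟩
abbrev G : Type := DihedralGroup 3 × Multiplicative (ZMod 3)
abbrev A : Type := MonoidAlgebra K G

def gr : G := (DihedralGroup.r 1, 1)
def gs : G := (DihedralGroup.sr 0, 1)
def gc : G := (1, Multiplicative.ofAdd 1)

noncomputable abbrev o (g : G) : A := MonoidAlgebra.of K G g
noncomputable def r : A := o gr
noncomputable def s : A := o gs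
noncomputable def c : A := o gc
noncomputable def t : A := r - r * r
noncomputable def u : A := c - 1
noncomputable def e : A := -(1 + s)
noncomputable def f : A := s - 1

theorem o_mul (g h : G) : o (g * h) = o g * o h := map_mul _ _ _

theorem o_pow (g : G) (n : ℕ) : o (g ^ n) = o g ^ n := map_pow _ _ _

theorem three : (1 : A) + 1 + 1 = 0 := by
  have : (1 : A) + 1 + 1 = algebraMap K A (1 + 1 + 1) := by rw [map_add, map_add, map_one]
  rw [this, show (1 + 1 + 1 : K) = 0 from rfl, map_zero]

theorem r3 : r * r * r = 1 := by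
  rw [r, ← map_mul, ← map_mul, show gr * gr * gr = 1 by decide, map_one]
theorem c3 : c * c * c = 1 := by
  rw [c, ← map_mul, ← map_mul, show gc * gc * gc = 1 by decide, map_one]
theorem s2 : s * s = 1 := by
  rw [s, ← map_mul, show gs * gs = 1 by decide, map_one]
theorem sr : s * r = r * r * s := by
  rw [s, r, ← map_mul, ← map_mul, ← map_mul, show gs * gr = gr * gr * gs by decide]
theorem srr : s * (r * r) = r * s := by
  rw [s, r, ← map_mul, ← map_mul, ← map_mul, show gs * (gr * gr) = gr * gs by decide]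

theorem A_ind {P : A → Prop} (h1 : ∀ g, P (o g)) (h2 : ∀ a b, P a → P b → P (a + b))
    (h3 : ∀ (k : K) a, P a → P (k • a)) (a : A) : P a :=
  MonoidAlgebra.induction_on a h1 h2 h3

theorem c_comm (a : A) : c * a = a * c := by
  induction a using A_ind with
  | h1 g =>
    have : ∀ g : G, gc * g = g * gc := by decide
    rw [c, ← map_mul, ← map_mul, this]
  | h2 a b ha hb => rw [mul_add, add_mul, ha, hb]
  | h3 k a ha => rw [mul_smul_comm, smul_mul_assoc, ha]

theorem u_comm (a : A) : u * a = a * u := by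
  rw [u, sub_mul, mul_sub, c_comm, one_mul, mul_one]

theorem u3 : u * u * u = 0 := by
  unfold u
  linear_combination (norm := noncomm_ring) c3 + three * (c - c * c)

theorem st : s * t = - (t * s) := by
  unfold t
  linear_combination (norm := noncomm_ring) sr - srr

theorem tt : t * t = 1 + r + r * r := by
  unfold t
  linear_combination (norm := noncomm_ring) r3 * r - 2 * r3 - three

theorem t3 : t * t * t = 0 := by
  rw [tt]
  unfold t
  linear_combination (norm := noncomm_ring) - (r3 * r)

theorem ef1 : e + f = 1 := by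
  unfold e f
  linear_combination (norm := noncomm_ring) - three

theorem ef0 : e * f = 0 := by
  unfold e f
  linear_combination (norm := noncomm_ring) - s2

theorem fe0 : f * e = 0 := by
  unfold e f
  linear_combination (norm := noncomm_ring) - s2

theorem ee : e * e = e := by
  linear_combination (norm := noncomm_ring) e * ef1 - ef0

theorem ff : f * f = f := by
  linear_combination (norm := noncomm_ring) f * ef1 - fe0

theorem et : e * t = t * f := by
  unfold e f
  linear_combination (norm := noncomm_ring) - st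

theorem tau_l : r - 1 = t * (-(r * r)) := by
  unfold t
  linear_combination (norm := noncomm_ring) r3 - r3 * r

theorem tau_r : r - 1 = (-(r * r)) * t := by
  unfold t
  linear_combination (norm := noncomm_ring) r3 - r3 * r

theorem t_ne : t ≠ 0 := by
  intro h
  have h1 : o gr = o (gr * gr) := by rw [o_mul]; exact sub_eq_zero.1 h
  exact absurd (MonoidAlgebra.of_injective h1) (by decide)

theorem t_norm (b : A) : ∃ b', t * b = b' * t := by
  induction b using A_ind with
  | h1 g =>
    have h : ∀ g : G, (gr * g = g * gr ∧ gr * gr * g = g * (gr * gr)) ∨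
      (gr * g = g * (gr * gr) ∧ gr * gr * g = g * gr) := by decide
    rcases h g with ⟨h1, h2⟩ | ⟨h1, h2⟩
    · refine ⟨o g, ?_⟩
      rw [t, r, sub_mul, mul_sub]
      simp only [← map_mul, h1, h2]
    · refine ⟨- o g, ?_⟩
      rw [t, r, sub_mul, neg_mul, mul_sub, neg_sub]
      simp only [← map_mul, h1, h2]
  | h2 a b ha hb =>
    obtain ⟨a', ha⟩ := ha
    obtain ⟨b', hb⟩ := hb
    exact ⟨a' + b', by rw [mul_add, add_mul, ha, hb]⟩
  | h3 k a ha =>
    obtain ⟨a', ha⟩ := ha
    exact ⟨k • a', by rw [mul_smul_comm, smul_mul_assoc, ha]⟩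

theorem nilJ (x y : A) : IsNilpotent (x * t + y * u) := by
  have h1 : IsNilpotent (x * t) := by
    obtain ⟨x1, h1⟩ := t_norm x
    obtain ⟨x2, h2⟩ := t_norm x1
    refine ⟨3, ?_⟩
    have : (x * t) ^ 3 = x * x1 * x2 * (t * t * t) := by
      linear_combination (norm := noncomm_ring) x * h1 * (t * x * t) + x * x1 * t * h1 * t
        + x * x1 * h2 * t * t
    rw [this, t3, mul_zero]
  have h2 : ∀ n : ℕ, ∃ z, (x * t + y * u) ^ n = (x * t) ^ n + z * u := by
    intro n
    induction n with
    | zero => exact ⟨0, by simp⟩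
    | succ n ih =>
      obtain ⟨z, hz⟩ := ih
      refine ⟨(x * t) ^ n * y + z * (x * t + y * u), ?_⟩
      rw [pow_succ, pow_succ, hz]
      linear_combination (norm := noncomm_ring) z * u_comm (x * t + y * u)
  obtain ⟨n, hn⟩ := h1
  obtain ⟨z, hz⟩ := h2 n
  rw [hn, zero_add] at hz
  refine ⟨n * 3, ?_⟩
  have hc : Commute z u := (u_comm z).symm
  rw [pow_mul, hz, hc.mul_pow, pow_three' u, u3, mul_zero]

def rho (g : G) : G :=
  (match g.1 with
    | DihedralGroup.r _ => 1
    | DihedralGroup.sr _ => DihedralGroup.sr 0, g.2)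

theorem eaf (a : A) : ∃ w, e * a * f = e * t * w := by
  induction a using A_ind with
  | h1 g =>
    have h : ∀ g : G, gs * rho g = rho g * gs ∧
      (g = rho g ∨ g = gr * rho g ∨ g = gr * gr * rho g) := by decide
    have h1 : s * o (rho g) = o (rho g) * s := by rw [s, ← map_mul, ← map_mul, (h g).1]
    have h2 : e * o (rho g) * f = 0 := by
      have : e * o (rho g) = o (rho g) * e := by
        unfold e
        linear_combination (norm := noncomm_ring) - h1
      rw [this, mul_assoc, ef0, mul_zero]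
    rcases (h g).2 with h3 | h3 | h3
    · exact ⟨0, by rw [h3, h2, mul_zero]⟩
    · have h4 : o g = r * o (rho g) := by rw [r, ← map_mul, ← h3]
      refine ⟨-(r * r) * o (rho g) * f, ?_⟩
      rw [h4]
      linear_combination (norm := noncomm_ring) h2 + e * tau_l * o (rho g) * f
    · have h4 : o g = r * r * o (rho g) := by rw [r, ← map_mul, ← map_mul, ← h3]
      refine ⟨-(r * r) * (r + 1) * o (rho g) * f, ?_⟩
      rw [h4]
      linear_combination (norm := noncomm_ring) h2 + e * tau_l * (r + 1) * o (rho g) * f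
  | h2 a b ha hb =>
    obtain ⟨a', ha⟩ := ha
    obtain ⟨b', hb⟩ := hb
    exact ⟨a' + b', by rw [mul_add, add_mul, ha, hb, mul_add]⟩
  | h3 k a ha =>
    obtain ⟨a', ha⟩ := ha
    exact ⟨k • a', by rw [mul_smul_comm, smul_mul_assoc, ha, mul_smul_comm]⟩

noncomputable def L (F : G → A) : A →ₗ[K] A := (MonoidAlgebra.basis G K).constr K F

theorem L_o (F : G → A) (g : G) : L F (o g) = F g :=
  (MonoidAlgebra.basis G K).constr_basis K F g

theorem exact_t (w : A) (h : w * (t * t) = 0) : ∃ z, w = z * t := by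
  let Q := L fun g => if rho g = g then o g else 0
  have key : ∀ a : A, ∃ z, a = z * t + Q (a * (t * t)) := by
    intro a
    induction a using A_ind with
    | h1 g =>
      have h : ∀ g : G,
        (rho g = g ∧ rho (g * gr) ≠ g * gr ∧ rho (g * (gr * gr)) ≠ g * (gr * gr)) ∨
        (rho g ≠ g ∧ rho (g * gr) = g * gr ∧ rho (g * (gr * gr)) ≠ g * (gr * gr)) ∨
        (rho g ≠ g ∧ rho (g * gr) ≠ g * gr ∧ rho (g * (gr * gr)) = g * (gr * gr)) := by decide
      have e1 : o g * (t * t) = o g + o (g * gr) + o (g * (gr * gr)) := by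
        rw [tt, mul_add, mul_add, mul_one, o_mul, o_mul, o_mul, r]
      rw [e1, map_add, map_add, L_o, L_o, L_o]
      rcases h g with ⟨h1, h2, h3⟩ | ⟨h1, h2, h3⟩ | ⟨h1, h2, h3⟩
      · exact ⟨0, by simp [h1, h2, h3]⟩
      · refine ⟨o g * (r * r), ?_⟩
        rw [if_neg h1, if_pos h2, if_neg h3, o_mul]
        change o g = o g * (r * r) * t + (0 + o g * r + 0)
        linear_combination (norm := noncomm_ring) - (o g * tau_r)
      · refine ⟨o g * (r + 1) * (r * r), ?_⟩
        rw [if_neg h1, if_neg h2, if_pos h3, o_mul, o_mul]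
        change o g = o g * (r + 1) * (r * r) * t + (0 + 0 + o g * (r * r))
        linear_combination (norm := noncomm_ring) - (o g * (r + 1) * tau_r)
    | h2 a b ha hb =>
      obtain ⟨a', ha⟩ := ha
      obtain ⟨b', hb⟩ := hb
      refine ⟨a' + b', ?_⟩
      rw [add_mul, add_mul, map_add]
      linear_combination (norm := noncomm_ring) ha + hb
    | h3 k a ha =>
      obtain ⟨a', ha⟩ := ha
      exact ⟨k • a', by rw [smul_mul_assoc, smul_mul_assoc, map_smul, ← smul_add, ← ha]⟩
  obtain ⟨z, hz⟩ := key w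
  exact ⟨z, by rw [h, map_zero, add_zero] at hz; exact hz⟩

theorem keyA (a : A) (h : ∀ z, e * t * z = 0 → ∃ c, a * z = e * t * c) :
    ∃ p q, a = e * t * p + q * (e * t) := by
  obtain ⟨c1, h1⟩ := h e (by rw [et, mul_assoc, fe0, mul_zero])
  obtain ⟨c2, h2⟩ := h (t * t) (by rw [mul_assoc, ← mul_assoc t, t3, mul_zero])
  obtain ⟨w, hw⟩ := eaf a
  obtain ⟨z, hz⟩ := exact_t (f * a) (by
    linear_combination (norm := noncomm_ring) f * h2 + fe0 * t * c2)
  refine ⟨c1 + w, z, ?_⟩
  linear_combination (norm := noncomm_ring) h1 + hw + hz * f - z * et - a * ef1 - ef1 * a * f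

theorem x_ne : e * t ≠ 0 := by
  intro h
  have h1 : o (gr * gr) + o (gs * (gr * gr)) = o gr + o (gs * gr) := by
    rw [o_mul, o_mul, o_mul, o_mul]
    change r * r + s * (r * r) = r + s * r
    unfold e t at h
    linear_combination (norm := noncomm_ring) h
  have h2 := congrArg (L fun g => if g = gr then 1 else 0) h1
  rw [map_add, map_add, L_o, L_o, L_o, L_o, if_neg (by decide), if_neg (by decide), if_pos rfl,
    if_neg (by decide)] at h2
  simp at h2

def sgn : G →* K where
  toFun g := match g.1 with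
    | DihedralGroup.r _ => 1
    | DihedralGroup.sr _ => -1
  map_one' := rfl
  map_mul' := by decide

noncomputable def chiP : A →ₐ[K] K := MonoidAlgebra.lift K K G 1
noncomputable def chiM : A →ₐ[K] K := MonoidAlgebra.lift K K G sgn

theorem dec (a : A) : ∃ x y, a - chiP a • e - chiM a • f = x * t + y * u := by
  induction a using A_ind with
  | h1 g =>
    have hp : chiP (o g) = 1 := MonoidAlgebra.lift_of _ _
    have hm : chiM (o g) = sgn g := MonoidAlgebra.lift_of _ _
    have h : ∀ g : G, ∃ i j : Fin 3, (sgn g = 1 ∧ g = gr ^ i.val * gc ^ j.val) ∨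
      (sgn g = -1 ∧ g = gs * (gr ^ i.val * gc ^ j.val)) := by decide
    have h1 : ∀ i j : ℕ, ∃ x y, r ^ i * c ^ j - 1 = x * t + y * u := by
      intro i j
      refine ⟨c ^ j * (∑ l ∈ Finset.range i, r ^ l) * (-(r * r)), ∑ l ∈ Finset.range j, c ^ l, ?_⟩
      have a1 := geom_sum_mul r i
      have a2 := geom_sum_mul c j
      have a3 : c ^ j * r ^ i = r ^ i * c ^ j := (Commute.pow_pow (c_comm r) j i).eq
      rw [u, a2, mul_assoc, ← tau_r, mul_assoc, a1, mul_sub, a3, mul_one]
      abel
    obtain ⟨i, j, ⟨h2, h3⟩ | ⟨h2, h3⟩⟩ := h g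
    · obtain ⟨x, y, hxy⟩ := h1 i j
      have h4 : o g = r ^ i.val * c ^ j.val := by rw [h3, o_mul, o_pow, o_pow]; rfl
      refine ⟨x, y, ?_⟩
      rw [hp, hm, h2, one_smul, one_smul, h4]
      linear_combination (norm := noncomm_ring) hxy - ef1
    · obtain ⟨x, y, hxy⟩ := h1 i j
      have h4 : o g = s * (r ^ i.val * c ^ j.val) := by
        rw [h3, o_mul, o_mul, o_pow, o_pow]; rfl
      refine ⟨s * x, s * y, ?_⟩
      rw [hp, hm, h2, one_smul, neg_smul, one_smul, h4]
      unfold e f
      linear_combination (norm := noncomm_ring) s * hxy + three * s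
  | h2 a b ha hb =>
    obtain ⟨x, y, ha⟩ := ha
    obtain ⟨x', y', hb⟩ := hb
    refine ⟨x + x', y + y', ?_⟩
    rw [map_add, map_add, add_smul, add_smul]
    linear_combination (norm := noncomm_ring) ha + hb
  | h3 k a ha =>
    obtain ⟨x, y, ha⟩ := ha
    refine ⟨k • x, k • y, ?_⟩
    rw [map_smul, map_smul, smul_eq_mul, smul_eq_mul, mul_smul, mul_smul, ← smul_sub, ← smul_sub, ha,
      smul_add, smul_mul_assoc, smul_mul_assoc]

theorem e_not_central (h : e * t = t * e) : False := by
  apply x_ne
  calc e * t = t * (e * e) := by rw [ee, h]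
    _ = e * t * e := by rw [← mul_assoc, h]
    _ = 0 := by rw [et, mul_assoc, fe0, mul_zero]

theorem indec (ε : A) (h1 : IsIdempotentElem ε) (h2 : ∀ a, ε * a = a * ε) : ε = 0 ∨ ε = 1 := by
  obtain ⟨x, y, hxy⟩ := dec ε
  have hn := nilJ x y
  rw [← hxy] at hn
  have key : ∀ b, IsIdempotentElem b → IsNilpotent (ε - b) → ε = b := fun b hb hn =>
    eq_of_isNilpotent_sub_of_isIdempotentElem_of_commute h1 hb hn (h2 b)
  rcases IsIdempotentElem.iff_eq_zero_or_one.1 (h1.map chiP) with hp | hp <;>
    rcases IsIdempotentElem.iff_eq_zero_or_one.1 (h1.map chiM) with hm | hm <;>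
    rw [hp, hm] at hn
  · exact Or.inl (key 0 IsIdempotentElem.zero (by simpa using hn))
  · have h3 := key f ff (by simpa using hn)
    have h4 := h2 t
    rw [h3] at h4
    exact (e_not_central (by
      linear_combination (norm := noncomm_ring) ef1 * t - t * ef1 - h4)).elim
  · have h3 := key e ee (by simpa using hn)
    have h4 := h2 t
    rw [h3] at h4
    exact (e_not_central h4).elim
  · refine Or.inr (key 1 IsIdempotentElem.one ?_)
    rw [← ef1, ← sub_sub]
    simpa using hn

noncomputable def DA : A →ₗ[K] A := L fun g => (Multiplicative.toAdd g.2 : K) • o g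

theorem DA_mul (a b : A) : DA (a * b) = DA a * b + a * DA b := by
  induction a using A_ind with
  | h2 a a' h h' => rw [add_mul, map_add, map_add, h, h', add_mul, add_mul]; abel
  | h3 k a h => rw [smul_mul_assoc, map_smul, map_smul, h, smul_add, smul_mul_assoc, smul_mul_assoc]
  | h1 g =>
    induction b using A_ind with
    | h2 b b' h h' => rw [mul_add, map_add, map_add, h, h', mul_add, mul_add]; abel
    | h3 k b h => rw [mul_smul_comm, map_smul, map_smul, h, smul_add, mul_smul_comm, mul_smul_comm]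
    | h1 g' =>
      rw [← o_mul, DA, L_o, L_o, L_o, smul_mul_assoc, mul_smul_comm, ← o_mul, ← add_smul]
      rfl

theorem DA_u : DA u = c := by
  have h1 : (1 : A) = o 1 := (map_one _).symm
  rw [u, map_sub, c, h1, DA, L_o, L_o]
  simp [gc]

noncomputable def der : Der Aᵐᵒᵖ where
  D :=
    { toFun := fun a => MulOpposite.op (DA a.unop)
      map_zero' := by simp
      map_add' := fun a b => by simp }
  hD a b := by
    apply MulOpposite.unop_injective
    change DA (b.unop * a.unop) = b.unop * DA a.unop + DA b.unop * a.unop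
    rw [DA_mul, add_comm]

theorem result :
    ∃ (k : Type) (_ : Field k) (Γ : Type) (_ : Group Γ) (_ : Finite Γ),
      (∀ ε : MonoidAlgebra k Γ, IsIdempotentElem ε → (∀ a, ε * a = a * ε) → ε = 0 ∨ ε = 1) ∧
      ¬ IsSemisimpleRing (MonoidAlgebra k Γ) ∧
      ∃ M : ModuleCat.{0} (MonoidAlgebra k Γ)ᵐᵒᵖ,
        Module.Finite (MonoidAlgebra k Γ)ᵐᵒᵖ M ∧ ¬ Module.Projective (MonoidAlgebra k Γ)ᵐᵒᵖ M ∧
        ∀ S : ModuleCat.{0} (MonoidAlgebra k Γ)ᵐᵒᵖ,
          IsSimpleModule (MonoidAlgebra k Γ)ᵐᵒᵖ S → phi S < phi M := by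
  refine ⟨K, inferInstance, G, inferInstance, inferInstance, indec, ?_,
    ModuleCat.of _ (Aᵐᵒᵖ ⧸ Submodule.span Aᵐᵒᵖ {MulOpposite.op (e * t)}), inferInstance,
    not_proj _ ?_, ?_⟩
  · intro h
    have h1 : t ∈ Ring.jacobson A := by
      rw [← Ideal.jacobson_bot, Ideal.mem_jacobson_iff]
      intro y
      have h2 : IsNilpotent (y * t) := by simpa using nilJ y 0
      obtain ⟨z, hz⟩ := h2.isUnit_add_one.exists_left_inv
      refine ⟨z, ?_⟩
      rw [mul_add, mul_one, ← mul_assoc] at hz
      rw [hz, sub_self]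
      exact Ideal.zero_mem _
    rw [IsSemisimpleRing.jacobson_eq_bot] at h1
    exact t_ne h1
  · intro p h
    have h1 : e * t + e * t * (p.unop * (e * t)) = 0 := by
      have := congrArg MulOpposite.unop h
      simpa [mul_assoc] using this
    have h2 : IsNilpotent (p.unop * e * t) := by simpa using nilJ (p.unop * e) 0
    obtain ⟨z, hz⟩ := h2.isUnit_add_one.exists_right_inv
    apply x_ne
    linear_combination (norm := noncomm_ring) h1 * z - e * t * hz
  · intro S hS
    have h1 : phi S ≤ 1 := by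
      have := IsSimpleModule.nontrivial Aᵐᵒᵖ S
      obtain ⟨v, hv⟩ := exists_ne (0 : S)
      refine sInf_le ⟨1, rfl, le_rfl, ext_ne der S (MulOpposite.op u) (kill S _ ?_ ?_) v ?_⟩
      · intro a
        apply MulOpposite.unop_injective
        exact (u_comm a.unop).symm
      · apply MulOpposite.unop_injective
        have := u3
        rw [mul_assoc] at this
        exact this
      · intro h
        have h2 : MulOpposite.op c • v = 0 := by rw [← DA_u]; exact h
        apply hv
        have h3 : (MulOpposite.op c * MulOpposite.op c * MulOpposite.op c : Aᵐᵒᵖ) = 1 := by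
          apply MulOpposite.unop_injective
          have := c3
          rw [mul_assoc] at this
          exact this
        rw [← one_smul Aᵐᵒᵖ v, ← h3, mul_smul, h2, smul_zero]
    have h2 := ext_vanish (MulOpposite.op (e * t)) (by
      intro a ha
      obtain ⟨p, q, hpq⟩ := keyA a.unop (fun z hz => by
        obtain ⟨c, hc⟩ := ha (MulOpposite.op z) (by rw [← MulOpposite.op_mul, hz, MulOpposite.op_zero])
        exact ⟨c.unop, congrArg MulOpposite.unop hc⟩)
      exact ⟨MulOpposite.op p, MulOpposite.op q, MulOpposite.unop_injective hpq⟩)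
    refine lt_of_le_of_lt h1 (lt_of_lt_of_le (b := 2) (by norm_num) (le_sInf ?_))
    rintro _ ⟨n, rfl, hn, hx⟩
    have : n ≠ 1 := by
      rintro rfl
      exact not_subsingleton _ h2
    exact_mod_cast (show 2 ≤ n by omega)

end Pool.Agent.Results.MP_f9a7a1_al.No
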